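import Pool.Agent.Lib.MP_3240be_co.P57.Two

/-!
# MP_3240be_co, T4 (finding 4844), rows P0 and P1

`MaxR H p D`: `D` is an inclusion-maximal rigid subgraph of `H`.
`MaxR.p0`: the copies of `D` in `H` are induced.
`MaxR.p1`: two copies with a common vertex `t` have the same vertices, or they share only `t` and
there is no edge between them outside `t`.
-/

set_option autoImplicit false

namespace MP3240R

open Finset Function MP3240T MP3240W MP3240CO
open MP3240C (CxB)
open MP3240X (VQ cq bz)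
open MP3240SSL (TD Sys Bod)
open Pool.Agent.Lib.MP_3240be_co.H36.Chrom (Sparse)

/-- `D` is an inclusion-maximal rigid subgraph of `H`. -/
structure MaxR {n : ℕ} (H : SimpleGraph (Fin n)) (p : ℕ) {d : ℕ} (D : SimpleGraph (Fin d)) :
    Prop where
  emb : Sub D H
  rig : Rig H p D
  max : ∀ (V : Type) [Finite V] (M : SimpleGraph V), Sub M H → Rig H p M →
    ∀ f : Fin d → V, Injective f → (∀ x y, D.Adj x y → M.Adj (f x) (f y)) →
    Surjective f ∧ ∀ x y, M.Adj (f x) (f y) → D.Adj x y

theorem Is1.comp {V V' Y : Type} {P : SimpleGraph Y} {M : SimpleGraph V} {M' : SimpleGraph V'}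
    {Z : Sys P} {S : Set Z.M} {Γ : Z.V → Z.V → Prop} {A : Set Z.V} {F : V' → Z.V}
    (h : Is1 M' Z S Γ A F) {e : V → V'} (hi : Injective e)
    (ha : ∀ x y, M.Adj x y → M'.Adj (e x) (e y)) : Is1 M Z S Γ A (fun v => F (e v)) :=
  ⟨h.td, h.inj.comp hi, fun _ => h.mem _, fun u v huv => h.adj _ _ (ha u v huv)⟩

theorem Is2.comp {V V' : Type} {n s p : ℕ} {H : SimpleGraph (Fin n)} {M : SimpleGraph V}
    {M' : SimpleGraph V'} {xs ys : Fin s → Fin n} {Bl J C : Type} {ty : Bl → Fin s → H.Dart}
    {io : Bl → Fin s → J} {R : C → C → Prop} {A : C → Prop} {F : V' → VQ H s Bl J C}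
    (h : Is2 H p M' xs ys ty io R A F) {e : V → V'} (hi : Injective e)
    (ha : ∀ x y, M.Adj x y → M'.Adj (e x) (e y)) :
    Is2 H p M xs ys ty io R A (fun v => F (e v)) :=
  ⟨h.xg, h.ioi, h.sp, h.sym, h.cx, h.inj.comp hi, fun _ => h.inn _, fun _ => h.near _,
    fun u v huv => h.adj _ _ (ha u v huv)⟩

/-- Embedding a rigid graph onto all vertices. -/
theorem Rig.map {n p : ℕ} {H : SimpleGraph (Fin n)} {V V' : Type} {M : SimpleGraph V}
    {M' : SimpleGraph V'} (h : Rig H p M) (e : V → V') (hi : Injective e) (hs : Surjective e)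
    (ha : ∀ x y, M.Adj x y → M'.Adj (e x) (e y)) : Rig H p M' where
  ncol := by
    rintro ⟨κ⟩
    exact h.ncol ⟨fun v => κ (e v), fun {a b} hab => κ.valid (ha a b hab)⟩
  e1 := by
    intro Y _ P hP Z S Γ A F hF
    obtain ⟨m, hm, hm'⟩ := h.e1 Y P hP Z S Γ A (fun v => F (e v)) (hF.comp hi ha)
    refine ⟨m, hm, fun u => ?_⟩
    obtain ⟨v, rfl⟩ := hs u
    exact hm' v
  e2 := by
    intro s xs ys Bl J C ty io R A F hF
    obtain ⟨b, hb'⟩ := h.e2 s xs ys Bl J C ty io R A (fun v => F (e v)) (hF.comp hi ha)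
    refine ⟨b, fun u => ?_⟩
    obtain ⟨v, rfl⟩ := hs u
    exact hb' v

/-- The copies of `D` are induced. -/
theorem MaxR.p0 {n p d : ℕ} {H : SimpleGraph (Fin n)} {D : SimpleGraph (Fin d)}
    (hD : MaxR H p D) (f : Fin d → Fin n) (hf : Injective f)
    (ha : ∀ x y, D.Adj x y → H.Adj (f x) (f y)) (x y : Fin d) (h : H.Adj (f x) (f y)) :
    D.Adj x y := by
  have hr : Rig H p (H.comap f) := hD.rig.map id injective_id surjective_id ha
  exact (hD.max _ (H.comap f) ⟨f, hf, fun _ _ h => h⟩ hr id injective_id ha).2 x y h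

/-- The position of a vertex of the blob `b` in `H`. -/
noncomputable def posB {n s : ℕ} {H : SimpleGraph (Fin n)} {Bl J C : Type}
    (xs ys : Fin s → Fin n) (ty : Bl → Fin s → H.Dart) (b : Bl) : VQ H s Bl J C → Fin n
  | .b _ w => w
  | .z j _ v => by classical exact if v = (ty b j).fst then xs j else ys j
  | .g _ _ _ w _ => w

theorem posB_b {n s : ℕ} {H : SimpleGraph (Fin n)} {Bl J C : Type}
    (xs ys : Fin s → Fin n) (ty : Bl → Fin s → H.Dart) (b b' : Bl) (w : Fin n) :
    posB (C := C) (J := J) xs ys ty b (.b b' w) = w := rfl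

theorem posB_fst {n s : ℕ} {H : SimpleGraph (Fin n)} {Bl J C : Type}
    (xs ys : Fin s → Fin n) (ty : Bl → Fin s → H.Dart) (b : Bl) (j : Fin s) (i : J) :
    posB (C := C) xs ys ty b (.z j i (ty b j).fst) = xs j := by
  simp [posB]

theorem posB_snd {n s : ℕ} {H : SimpleGraph (Fin n)} {Bl J C : Type}
    (xs ys : Fin s → Fin n) (ty : Bl → Fin s → H.Dart) (b : Bl) (j : Fin s) (i : J) :
    posB (C := C) xs ys ty b (.z j i (ty b j).snd) = ys j := by
  have h : (ty b j).snd ≠ (ty b j).fst := (ty b j).adj.ne'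
  simp [posB, h]

section E2
variable {n s : ℕ} {H : SimpleGraph (Fin n)} {Bl J C : Type} {xs ys : Fin s → Fin n}
  {ty : Bl → Fin s → H.Dart} {io : Bl → Fin s → J}

/-- Two different roots of one blob at one passenger set are its root pair. -/
theorem InBlob.pair {b : Bl} {j j' : Fin s} {i i' : J} {v v' : Fin n}
    (h : InBlob (C := C) ty io b (.z j i v)) (h' : InBlob (C := C) ty io b (.z j' i' v')) :
    i = io b j ∧ i' = io b j' ∧ (j = j' → v ≠ v' →
      (v = (ty b j).fst ∧ v' = (ty b j).snd) ∨ (v = (ty b j).snd ∧ v' = (ty b j).fst)) := by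
  rcases h with ⟨w, h⟩ | ⟨k, h⟩
  · cases h
  rcases h' with ⟨w, h'⟩ | ⟨k', h'⟩
  · cases h'
  have e1 : j = k ∧ i = io b k ∧ (v = (ty b k).fst ∨ v = (ty b k).snd) := by
    rcases h with h | h <;> cases h
    · exact ⟨rfl, rfl, Or.inl rfl⟩
    · exact ⟨rfl, rfl, Or.inr rfl⟩
  have e2 : j' = k' ∧ i' = io b k' ∧ (v' = (ty b k').fst ∨ v' = (ty b k').snd) := by
    rcases h' with h' | h' <;> cases h'
    · exact ⟨rfl, rfl, Or.inl rfl⟩
    · exact ⟨rfl, rfl, Or.inr rfl⟩
  obtain ⟨rfl, rfl, e1⟩ := e1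
  obtain ⟨rfl, rfl, e2⟩ := e2
  refine ⟨rfl, rfl, ?_⟩
  rintro rfl hne
  rcases e1 with e1 | e1 <;> rcases e2 with e2 | e2
  · exact absurd (e1.trans e2.symm) hne
  · exact Or.inl ⟨e1, e2⟩
  · exact Or.inr ⟨e1, e2⟩
  · exact absurd (e1.trans e2.symm) hne

/-- The positions of the vertices of a blob are different. -/
theorem posB_inj (hX : XG H ∅ xs ys) {b : Bl} {x y : VQ H s Bl J C} (hx : InBlob ty io b x)
    (hy : InBlob ty io b y) (hxw : ∀ b w, x = .b b w → ∀ j, w ≠ xs j ∧ w ≠ ys j)
    (hyw : ∀ b w, y = .b b w → ∀ j, w ≠ xs j ∧ w ≠ ys j)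
    (h : posB xs ys ty b x = posB xs ys ty b y) : x = y := by
  rcases hx with ⟨w, rfl⟩ | ⟨j, hx⟩ <;> rcases hy with ⟨w', rfl⟩ | ⟨j', hy⟩
  · rw [posB_b, posB_b] at h
    rw [h]
  · rcases hy with rfl | rfl
    · rw [posB_b, posB_fst] at h
      exact absurd h (hxw b w rfl j').1
    · rw [posB_b, posB_snd] at h
      exact absurd h (hxw b w rfl j').2
  · rcases hx with rfl | rfl
    · rw [posB_b, posB_fst] at h
      exact absurd h.symm (hyw b w' rfl j).1
    · rw [posB_b, posB_snd] at h
      exact absurd h.symm (hyw b w' rfl j).2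
  · by_cases hjj : j = j'
    · subst hjj
      rcases hx with rfl | rfl <;> rcases hy with rfl | rfl
      · rfl
      · rw [posB_fst, posB_snd] at h
        exact absurd h (hX.adj j).ne
      · rw [posB_fst, posB_snd] at h
        exact absurd h.symm (hX.adj j).ne
      · rfl
    · have hi := hX.ind j j' hjj
      rcases hx with rfl | rfl <;> rcases hy with rfl | rfl
      · rw [posB_fst, posB_fst] at h
        exact absurd h hi.1
      · rw [posB_fst, posB_snd] at h
        exact absurd h hi.2.1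
      · rw [posB_fst, posB_snd] at h
        exact absurd h hi.2.2.1
      · rw [posB_snd, posB_snd] at h
        exact absurd h hi.2.2.2.1

/-- Edges inside a blob go to edges of `H`. -/
theorem posB_adj {R : C → C → Prop} {A : C → Prop} {b : Bl} {x y : VQ H s Bl J C}
    (hx : InBlob ty io b x) (hy : InBlob ty io b y) (h : cq xs ys ty io R A x y) :
    H.Adj (posB xs ys ty b x) (posB xs ys ty b y) := by
  rcases hx with ⟨w, rfl⟩ | ⟨j, hx⟩ <;> rcases hy with ⟨w', rfl⟩ | ⟨j', hy⟩
  · exact h.2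
  · rcases hy with rfl | rfl
    · rw [posB_b, posB_fst]
      rcases (h : bz xs ys ty io b w j' (io b j') (ty b j').fst).2 with h | h
      · exact h.2
      · exact absurd h.1 (ty b j').adj.ne
    · rw [posB_b, posB_snd]
      rcases (h : bz xs ys ty io b w j' (io b j') (ty b j').snd).2 with h | h
      · exact absurd h.1 (ty b j').adj.ne'
      · exact h.2
  · rcases hx with rfl | rfl
    · rw [posB_b, posB_fst]
      rcases (h : bz xs ys ty io b w' j (io b j) (ty b j).fst).2 with h | h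
      · exact h.2.symm
      · exact absurd h.1 (ty b j).adj.ne
    · rw [posB_b, posB_snd]
      rcases (h : bz xs ys ty io b w' j (io b j) (ty b j).snd).2 with h | h
      · exact absurd h.1 (ty b j).adj.ne'
      · exact h.2.symm
  · rcases hx with rfl | rfl <;> rcases hy with rfl | rfl <;> exact (h : False).elim

/-- A copy of a maximal rigid graph inside a blob contains at most one vertex of every root
pair. -/
theorem MaxR.root {p d : ℕ} {D : SimpleGraph (Fin d)} (hD : MaxR H p D) (hX : XG H ∅ xs ys)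
    {R : C → C → Prop} {A : C → Prop} {b : Bl} (F : Fin d → VQ H s Bl J C) (hF : Injective F)
    (hFb : ∀ u, InBlob ty io b (F u))
    (hw : ∀ u b w, F u = .b b w → ∀ j, w ≠ xs j ∧ w ≠ ys j)
    (hadj : ∀ u v, D.Adj u v → cq xs ys ty io R A (F u) (F v)) {u v : Fin d} {j : Fin s}
    (hu : F u = .z j (io b j) (ty b j).fst) (hv : F v = .z j (io b j) (ty b j).snd) : False := by
  have h := hD.p0 (fun u => posB xs ys ty b (F u))
    (fun u v huv => hF (posB_inj hX (hFb u) (hFb v) (hw u) (hw v) huv))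
    (fun u v huv => posB_adj (hFb u) (hFb v) (hadj u v huv)) u v (by
      change H.Adj (posB xs ys ty b (F u)) (posB xs ys ty b (F v))
      rw [hu, hv, posB_fst, posB_snd]
      exact hX.adj j)
  have h2 := hadj u v h
  rw [hu, hv] at h2
  exact h2

/-- A common vertex of two blobs is a passenger. -/
theorem InBlob.two {b b' : Bl} (hbb : b ≠ b') {x : VQ H s Bl J C} (h : InBlob ty io b x)
    (h' : InBlob ty io b' x) : ∃ j v, x = .z j (io b j) v ∧ io b j = io b' j := by
  rcases h with ⟨w, rfl⟩ | ⟨j, h⟩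
  · rcases h' with ⟨w', h'⟩ | ⟨k, h' | h'⟩ <;> cases h'
    exact absurd rfl hbb
  · rcases h with rfl | rfl <;> rcases h' with ⟨w', h'⟩ | ⟨k, h' | h'⟩
    · cases h'
    · injection h' with e1 e2 e3
      subst e1
      exact ⟨j, _, rfl, e2⟩
    · injection h' with e1 e2 e3
      subst e1
      exact ⟨j, _, rfl, e2⟩
    · cases h'
    · injection h' with e1 e2 e3
      subst e1
      exact ⟨j, _, rfl, e2⟩
    · injection h' with e1 e2 e3
      subst e1
      exact ⟨j, _, rfl, e2⟩

/-- Two blobs have at most one common passenger set. -/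
theorem sparse_two (hn : 2 ≤ n) (hS : Sparse (n * n) io) (hinj : ∀ b, Injective (io b))
    {b b' : Bl} (hbb : b ≠ b') {j k : Fin s} (hj : io b j = io b' j) (hk : io b k = io b' k) :
    j = k := by
  classical
  have h4 : 2 ≤ n * n := le_trans hn (Nat.le_mul_of_pos_left n (by omega))
  obtain ⟨m, hm, m', hm', hmm, hl, hl'⟩ := hS {b, b'} (by rw [card_pair hbb])
    (by rw [card_pair hbb]; exact h4)
  have hb' : b' ∈ ({b, b'} : Finset Bl) := by simp
  have hb : b ∈ ({b, b'} : Finset Bl) := by simp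
  rw [mem_insert, mem_singleton] at hm hm'
  rcases hm with rfl | rfl
  · exact hinj m (hl b' hb' b' hb' hbb.symm hbb.symm j j k k hj hk)
  · rcases hm' with rfl | rfl
    · exact hinj m' (hl' m hb' m hb' hbb.symm hbb.symm j j k k hj hk)
    · exact absurd rfl hmm

/-- Two vertices of a copy of a maximal rigid graph in the blob `b` are not two different
passengers of one set. -/
theorem MaxR.roots {p d : ℕ} {D : SimpleGraph (Fin d)} (hD : MaxR H p D) (hX : XG H ∅ xs ys)
    {R : C → C → Prop} {A : C → Prop} {b : Bl} (F : Fin d → VQ H s Bl J C) (hF : Injective F)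
    (hFb : ∀ u, InBlob ty io b (F u))
    (hw : ∀ u b w, F u = .b b w → ∀ j, w ≠ xs j ∧ w ≠ ys j)
    (hadj : ∀ u v, D.Adj u v → cq xs ys ty io R A (F u) (F v)) {u v : Fin d} {j : Fin s}
    {i : J} {x y : Fin n} (hu : F u = .z j i x) (hv : F v = .z j i y) (hxy : x ≠ y) : False := by
  have h1 := hFb u
  have h2 := hFb v
  rw [hu] at h1
  rw [hv] at h2
  obtain ⟨e1, -, e2⟩ := h1.pair h2
  subst e1
  rcases e2 rfl hxy with ⟨rfl, rfl⟩ | ⟨rfl, rfl⟩
  · exact hD.root hX F hF hFb hw hadj hu hv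
  · exact hD.root hX F hF hFb hw hadj hv hu

end E2

/-- Two copies of a maximal rigid graph. -/
theorem MaxR.p1 {n p d : ℕ} {H : SimpleGraph (Fin n)} {D : SimpleGraph (Fin d)}
    (hD : MaxR H p D) (f g : Fin d → Fin n) (hf : Injective f) (hg : Injective g)
    (haf : ∀ x y, D.Adj x y → H.Adj (f x) (f y)) (hag : ∀ x y, D.Adj x y → H.Adj (g x) (g y))
    {t : Fin n} (htf : t ∈ Set.range f) (htg : t ∈ Set.range g) :
    Set.range f = Set.range g ∨ ((∀ x, x ∈ Set.range f → x ∈ Set.range g → x = t) ∧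
      ∀ x y, x ∈ Set.range f → y ∈ Set.range g → x ≠ t → y ≠ t → ¬ H.Adj x y) := by
  classical
  by_contra hcon
  push Not at hcon
  obtain ⟨hne, hcon⟩ := hcon
  -- the bad pair
  have hbad : (∃ x, x ∈ Set.range f ∧ x ∈ Set.range g ∧ x ≠ t) ∨
      ∃ x y, x ∈ Set.range f ∧ y ∈ Set.range g ∧ x ≠ t ∧ y ≠ t ∧ H.Adj x y := by
    by_cases h : ∀ x, x ∈ Set.range f → x ∈ Set.range g → x = t
    · exact Or.inr (hcon h)
    · push Not at h
      exact Or.inl h
  let V : Type := {x : Fin n // x ∈ Set.range f ∪ Set.range g}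
  let M : SimpleGraph V := H.comap Subtype.val
  let f' : Fin d → V := fun i => ⟨f i, Or.inl ⟨i, rfl⟩⟩
  let g' : Fin d → V := fun i => ⟨g i, Or.inr ⟨i, rfl⟩⟩
  have hf' : Injective f' := fun i j h => hf (congrArg Subtype.val h)
  have hg' : Injective g' := fun i j h => hg (congrArg Subtype.val h)
  have haf' : ∀ x y, D.Adj x y → M.Adj (f' x) (f' y) := haf
  have hag' : ∀ x y, D.Adj x y → M.Adj (g' x) (g' y) := hag
  have hcov : ∀ u : V, (∃ i, f' i = u) ∨ ∃ i, g' i = u := by
    rintro ⟨u, ⟨i, rfl⟩ | ⟨i, rfl⟩⟩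
    · exact Or.inl ⟨i, rfl⟩
    · exact Or.inr ⟨i, rfl⟩
  have hemb : Emb M H := ⟨Subtype.val, Subtype.val_injective, fun _ _ h => h⟩
  obtain ⟨i0, hi0⟩ := htf
  obtain ⟨k0, hk0⟩ := htg
  have ht0 : f' i0 = g' k0 := Subtype.ext (hi0.trans hk0.symm)
  -- a common vertex or an edge in terms of `V`
  have hbad' : (∃ i k, f' i = g' k ∧ f' i ≠ f' i0) ∨
      ∃ i k, f' i ≠ f' i0 ∧ g' k ≠ g' k0 ∧ M.Adj (f' i) (g' k) := by
    rcases hbad with ⟨x, ⟨i, hi⟩, ⟨k, hk⟩, hx⟩ | ⟨x, y, ⟨i, hi⟩, ⟨k, hk⟩, hx, hy, hxy⟩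
    · refine Or.inl ⟨i, k, Subtype.ext (hi.trans hk.symm), fun h => hx ?_⟩
      rw [← hi, ← hi0]
      exact congrArg Subtype.val h
    · refine Or.inr ⟨i, k, fun h => hx ?_, fun h => hy ?_, ?_⟩
      · rw [← hi, ← hi0]
        exact congrArg Subtype.val h
      · rw [← hk, ← hk0]
        exact congrArg Subtype.val h
      · change H.Adj (f i) (g k)
        rwa [hi, hk]
  have hrig : Rig H p M := by
    refine ⟨?_, ?_, ?_⟩
    · rintro ⟨κ⟩
      exact hD.rig.ncol ⟨fun v => κ (f' v), fun {a b} hab => κ.valid (haf' a b hab)⟩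
    · intro Y _ P hP Z S Γ A F hIs
      have hT := hIs.td
      have hF := hIs.inj
      have hadj := hIs.adj
      obtain ⟨m, hm, hmf⟩ := hD.rig.e1 Y P hP Z S Γ A _ (hIs.comp hf' haf')
      obtain ⟨m', hm', hmg⟩ := hD.rig.e1 Y P hP Z S Γ A _ (hIs.comp hg' hag')
      by_cases hmm : m = m'
      · subst hmm
        refine ⟨m, hm, fun u => ?_⟩
        rcases hcov u with ⟨i, rfl⟩ | ⟨i, rfl⟩
        · exact hmf i
        · exact hmg i
      · exfalso
        have h0 : F (f' i0) ∈ Set.range (Z.δ m') := by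
          rw [ht0]
          exact hmg k0
        rcases hbad' with ⟨i, k, h1, h2⟩ | ⟨i, k, h1, h2, h3⟩
        · refine h2 (hF (Z.linr m m' hmm _ _ (hmf i) ?_ (hmf i0) h0))
          rw [h1]
          exact hmg k
        · refine hT.ring Z.inj Z.linr m hm m' hm' hmm (F (f' i0)) (F (f' i)) (F (g' k))
            (hmf i0) h0 (hmf i) (hmg k) (fun h => h1 (hF h)) (fun h => h2 ?_) (hadj _ _ h3)
          rw [← ht0]
          exact hF h
    · intro s xs ys Bl J C ty io R A F hIs
      have hX := hIs.xg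
      have h1 := hIs.ioi
      have h2 := hIs.sp
      have hF := hIs.inj
      have hb := hIs.inn
      have hadj := hIs.adj
      obtain ⟨b, hbf⟩ := hD.rig.e2 s xs ys Bl J C ty io R A _ (hIs.comp hf' haf')
      obtain ⟨b', hbg⟩ := hD.rig.e2 s xs ys Bl J C ty io R A _ (hIs.comp hg' hag')
      by_cases hbb : b = b'
      · subst hbb
        refine ⟨b, fun u => ?_⟩
        rcases hcov u with ⟨i, rfl⟩ | ⟨i, rfl⟩
        · exact hbf i
        · exact hbg i
      · exfalso
        have hF1 : Injective (fun v => F (f' v)) := hF.comp hf'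
        have hF2 : Injective (fun v => F (g' v)) := hF.comp hg'
        have h0 : InBlob ty io b' (F (f' i0)) := by
          rw [ht0]
          exact hbg k0
        obtain ⟨j, v, hv, hj⟩ := InBlob.two hbb (hbf i0) h0
        have hn : 2 ≤ n := by
          have h5 := (hX.adj j).ne
          have h6 := (xs j).isLt
          have h7 := (ys j).isLt
          by_contra h8
          exact h5 (Fin.ext (by omega))
        rcases hbad' with ⟨i, k, e1, e2⟩ | ⟨i, k, e1, e2, e3⟩
        · have h5 : InBlob ty io b' (F (f' i)) := by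
            rw [e1]
            exact hbg k
          obtain ⟨j', v', hv', hj'⟩ := InBlob.two hbb (hbf i) h5
          have ejj := sparse_two hn h2 h1 hbb hj hj'
          subst ejj
          refine hD.roots hX (fun v => F (f' v)) hF1 hbf (fun u => hb _)
            (fun u v huv => hadj _ _ (haf' u v huv)) hv hv' ?_
          rintro rfl
          exact e2 (hF (hv'.trans hv.symm))
        · have h6 := hadj _ _ e3
          have hk0v : F (g' k0) = .z j (io b j) v := by rw [← ht0, hv]
          rcases hbf i with ⟨w, hw⟩ | ⟨j1, h7⟩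
          · rcases hbg k with ⟨w', hw'⟩ | ⟨j2, h8⟩
            · rw [hw, hw'] at h6
              exact hbb h6.1
            · obtain ⟨y, hy⟩ : ∃ y, F (g' k) = .z j2 (io b' j2) y := by
                rcases h8 with h8 | h8 <;> exact ⟨_, h8⟩
              rw [hw, hy] at h6
              have ejj := sparse_two hn h2 h1 hbb hj (h6 : bz xs ys ty io b w j2 (io b' j2) y).1
              subst ejj
              rw [← hj] at hy
              refine hD.roots hX (fun v => F (g' v)) hF2 hbg (fun u => hb _)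
                (fun u v huv => hadj _ _ (hag' u v huv)) hk0v hy ?_
              rintro rfl
              exact e2 (hF (hy.trans hk0v.symm))
          · obtain ⟨y, hy⟩ : ∃ y, F (f' i) = .z j1 (io b j1) y := by
              rcases h7 with h7 | h7 <;> exact ⟨_, h7⟩
            rcases hbg k with ⟨w', hw'⟩ | ⟨j2, h8⟩
            · rw [hw', hy] at h6
              have ejj := sparse_two hn h2 h1 hbb hj
                (h6 : bz xs ys ty io b' w' j1 (io b j1) y).1.symm
              subst ejj
              refine hD.roots hX (fun v => F (f' v)) hF1 hbf (fun u => hb _)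
                (fun u v huv => hadj _ _ (haf' u v huv)) hv hy ?_
              rintro rfl
              exact e1 (hF (hy.trans hv.symm))
            · obtain ⟨y', hy'⟩ : ∃ y, F (g' k) = .z j2 (io b' j2) y := by
                rcases h8 with h8 | h8 <;> exact ⟨_, h8⟩
              rw [hy, hy'] at h6
              exact h6
  rcases hD.max V M hemb hrig f' hf' haf' with ⟨hsf, -⟩
  rcases hD.max V M hemb hrig g' hg' hag' with ⟨hsg, -⟩
  apply hne
  apply Set.Subset.antisymm
  · rintro _ ⟨i, rfl⟩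
    obtain ⟨k, hk⟩ := hsg (f' i)
    exact ⟨k, congrArg Subtype.val hk⟩
  · rintro _ ⟨i, rfl⟩
    obtain ⟨k, hk⟩ := hsf (g' i)
    exact ⟨k, congrArg Subtype.val hk⟩

end MP3240R
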