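import Pool.Agent.Lib.MP_3240be_co.SSL8.Td

/-!
# MP_3240be_co, T4 (finding 4844): geometry of tree graphs

`TD.tri`: a triangle lies in one body.  `TD.out`: a vertex outside a body has at most one neighbour
in it.  `TD.ring`: two bodies with a common vertex `t` have no edge between them outside `t`.
-/

set_option autoImplicit false

namespace MP3240SSL

open Finset Function

variable {V M Y : Type} {δ : M → Y → V} {P : SimpleGraph Y}

theorem TD.rng {S : Set M} {Γ : V → V → Prop} {A : Set V} (h : TD δ P S Γ A) :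
    ∀ m ∈ S, ∀ x ∈ Set.range (δ m), x ∈ A := by
  induction h with
  | bod m =>
    intro m' hm' x hx
    rw [Set.mem_singleton_iff] at hm'
    subst hm'
    exact hx
  | bip Γ A f h hA hs => exact fun m hm => absurd hm (Set.notMem_empty m)
  | glu a b h1 h2 hd hA hab ih1 ih2 =>
    rintro m (hm | hm) x hx
    · exact Or.inl (ih1 m hm x hx)
    · exact Or.inr (ih2 m hm x hx)

theorem TD.irr {S : Set M} {Γ : V → V → Prop} {A : Set V} (h : TD δ P S Γ A)
    (hinj : ∀ m, Injective (δ m)) : ∀ x y, Γ x y → x ≠ y := by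
  induction h with
  | bod m =>
    rintro x y ⟨t, t', rfl, rfl, h⟩ he
    exact h.ne (hinj m he)
  | bip Γ A f h hA hs =>
    rintro x y hxy rfl
    exact h x x hxy rfl
  | glu a b h1 h2 hd hA hab ih1 ih2 =>
    rintro x y (h | h)
    · exact ih1 x y h
    · exact ih2 x y h

/-- An edge of one side between common vertices is an edge of both sides. -/
theorem TD.back {S1 : Set M} {Γ1 Γ2 : V → V → Prop} {A1 A2 : Set V} {a b : V}
    (h1 : TD δ P S1 Γ1 A1) (hA : ∀ x, x ∈ A1 → x ∈ A2 → x = a ∨ x = b)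
    (hab : a = b ∨ (Γ1 a b ∧ Γ2 a b)) {x y : V} (hx1 : x ∈ A1) (hx2 : x ∈ A2) (hy1 : y ∈ A1)
    (hy2 : y ∈ A2) (hxy : x ≠ y) : Γ1 x y := by
  rcases hA x hx1 hx2 with rfl | rfl <;> rcases hA y hy1 hy2 with rfl | rfl
  · exact absurd rfl hxy
  · rcases hab with rfl | ⟨h, _⟩
    · exact absurd rfl hxy
    · exact h
  · rcases hab with rfl | ⟨h, _⟩
    · exact absurd rfl hxy
    · exact h1.symm _ _ h
  · exact absurd rfl hxy

/-- A triangle of a tree graph lies in one body. -/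
theorem TD.tri {S : Set M} {Γ : V → V → Prop} {A : Set V} (h : TD δ P S Γ A)
    (hinj : ∀ m, Injective (δ m)) : ∀ x y z, Γ x y → Γ y z → Γ x z →
      ∃ m ∈ S, x ∈ Set.range (δ m) ∧ y ∈ Set.range (δ m) ∧ z ∈ Set.range (δ m) := by
  induction h with
  | bod m =>
    rintro x y z ⟨t, t', hx, hy, _⟩ ⟨_, t'', _, hz, _⟩ _
    exact ⟨m, rfl, ⟨t, hx.symm⟩, ⟨t', hy.symm⟩, ⟨t'', hz.symm⟩⟩
  | bip Γ A f h hA hs =>
    intro x y z h1 h2 h3
    have e1 := h x y h1
    have e2 := h y z h2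
    have e3 := h x z h3
    rcases hx : f x <;> rcases hy : f y <;> rcases hz : f z <;> simp_all
  | glu a b h1 h2 hd hA hab ih1 ih2 =>
    rename_i S1 S2 Γ1 Γ2 A1 A2
    intro x y z hxy hyz hxz
    have i1 := h1.irr hinj
    have i2 := h2.irr hinj
    have m1 := h1.mem
    have m2 := h2.mem
    have hA' : ∀ x, x ∈ A2 → x ∈ A1 → x = a ∨ x = b := fun x h h' => hA x h' h
    have hab' : a = b ∨ (Γ2 a b ∧ Γ1 a b) := hab.imp id fun h => ⟨h.2, h.1⟩
    -- an edge between two vertices of one side is an edge of that side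
    have key1 : ∀ x y, x ∈ A1 → y ∈ A1 → (Γ1 x y ∨ Γ2 x y) → Γ1 x y := by
      rintro x y hx hy (h | h)
      · exact h
      · exact h1.back hA hab hx (m2 x y h).1 hy (m2 x y h).2 (i2 x y h)
    have key2 : ∀ x y, x ∈ A2 → y ∈ A2 → (Γ1 x y ∨ Γ2 x y) → Γ2 x y := by
      rintro x y hx hy (h | h)
      · exact h2.back hA' hab' hx (m1 x y h).1 hy (m1 x y h).2 (i1 x y h)
      · exact h
    have fin1 : x ∈ A1 → y ∈ A1 → z ∈ A1 → ∃ m ∈ S1 ∪ S2, x ∈ Set.range (δ m) ∧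
        y ∈ Set.range (δ m) ∧ z ∈ Set.range (δ m) := by
      intro hx hy hz
      obtain ⟨m, hm, h⟩ := ih1 x y z (key1 x y hx hy hxy) (key1 y z hy hz hyz)
        (key1 x z hx hz hxz)
      exact ⟨m, Or.inl hm, h⟩
    have fin2 : x ∈ A2 → y ∈ A2 → z ∈ A2 → ∃ m ∈ S1 ∪ S2, x ∈ Set.range (δ m) ∧
        y ∈ Set.range (δ m) ∧ z ∈ Set.range (δ m) := by
      intro hx hy hz
      obtain ⟨m, hm, h⟩ := ih2 x y z (key2 x y hx hy hxy) (key2 y z hy hz hyz)
        (key2 x z hx hz hxz)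
      exact ⟨m, Or.inr hm, h⟩
    rcases hxy with e1 | e1 <;> rcases hyz with e2 | e2
    · exact fin1 (m1 _ _ e1).1 (m1 _ _ e1).2 (m1 _ _ e2).2
    · rcases hxz with e3 | e3
      · exact fin1 (m1 _ _ e1).1 (m1 _ _ e1).2 (m1 _ _ e3).2
      · exact fin2 (m2 _ _ e3).1 (m2 _ _ e2).1 (m2 _ _ e3).2
    · rcases hxz with e3 | e3
      · exact fin1 (m1 _ _ e3).1 (m1 _ _ e2).1 (m1 _ _ e3).2
      · exact fin2 (m2 _ _ e1).1 (m2 _ _ e1).2 (m2 _ _ e3).2
    · exact fin2 (m2 _ _ e1).1 (m2 _ _ e1).2 (m2 _ _ e2).2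

/-- Two bodies share at most one vertex. -/
def Lin (δ : M → Y → V) : Prop :=
  ∀ m m', m ≠ m' → ∀ x y, x ∈ Set.range (δ m) → x ∈ Set.range (δ m') → y ∈ Set.range (δ m) →
    y ∈ Set.range (δ m') → x = y

theorem Sys.linr {Y : Type} {P : SimpleGraph Y} (Z : Sys P) : Lin Z.δ := by
  rintro m m' hm _ _ ⟨y1, rfl⟩ ⟨y2, h2⟩ ⟨y3, rfl⟩ ⟨y4, h4⟩
  have e2 : y2 = y1 := by rw [← Z.hp m' y2, h2, Z.hp]
  have e4 : y4 = y3 := by rw [← Z.hp m' y4, h4, Z.hp]
  subst e2
  subst e4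
  rw [Z.lin m m' hm _ _ h2.symm h4.symm]

/-- A vertex outside a body has at most one neighbour in it. -/
theorem TD.out {S : Set M} {Γ : V → V → Prop} {A : Set V} (h : TD δ P S Γ A)
    (hinj : ∀ m, Injective (δ m)) (hlin : Lin δ) : ∀ m ∈ S, ∀ u v y, u ∈ Set.range (δ m) →
      v ∈ Set.range (δ m) → u ≠ v → y ∉ Set.range (δ m) → Γ u y → Γ v y → False := by
  induction h with
  | bod m =>
    rintro m' hm' u v y _ _ _ hy ⟨_, t, _, h, _⟩ _
    rw [Set.mem_singleton_iff] at hm'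
    subst hm'
    exact hy ⟨t, h.symm⟩
  | bip Γ A f h hA hs => exact fun m hm => absurd hm (Set.notMem_empty m)
  | glu a b h1 h2 hd hA hab ih1 ih2 =>
    rename_i S1 S2 Γ1 Γ2 A1 A2
    have i1 := h1.irr hinj
    have i2 := h2.irr hinj
    have m1 := h1.mem
    have m2 := h2.mem
    have hA' : ∀ x, x ∈ A2 → x ∈ A1 → x = a ∨ x = b := fun x h h' => hA x h' h
    have hab' : a = b ∨ (Γ2 a b ∧ Γ1 a b) := hab.imp id fun h => ⟨h.2, h.1⟩
    have key1 : ∀ x y, x ∈ A1 → y ∈ A1 → (Γ1 x y ∨ Γ2 x y) → Γ1 x y := by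
      rintro x y hx hy (h | h)
      · exact h
      · exact h1.back hA hab hx (m2 x y h).1 hy (m2 x y h).2 (i2 x y h)
    have key2 : ∀ x y, x ∈ A2 → y ∈ A2 → (Γ1 x y ∨ Γ2 x y) → Γ2 x y := by
      rintro x y hx hy (h | h)
      · exact h2.back hA' hab' hx (m1 x y h).1 hy (m1 x y h).2 (i1 x y h)
      · exact h
    rintro m (hm | hm) u v y hu hv huv hy huy hvy
    · have hu1 := h1.rng m hm u hu
      have hv1 := h1.rng m hm v hv
      by_cases hy1 : y ∈ A1
      · exact ih1 m hm u v y hu hv huv hy (key1 u y hu1 hy1 huy) (key1 v y hv1 hy1 hvy)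
      · have e1 : Γ2 u y := huy.resolve_left fun h => hy1 (m1 _ _ h).2
        have e2 : Γ2 v y := hvy.resolve_left fun h => hy1 (m1 _ _ h).2
        have e3 : Γ2 u v := h2.back hA' hab' (m2 _ _ e1).1 hu1 (m2 _ _ e2).1 hv1 huv
        obtain ⟨m', hm', hu', hv', -⟩ := h2.tri hinj u v y e3 e2 e1
        refine huv (hlin m m' ?_ u v hu hu' hv hv')
        rintro rfl
        exact hd m hm hm'
    · have hu2 := h2.rng m hm u hu
      have hv2 := h2.rng m hm v hv
      by_cases hy2 : y ∈ A2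
      · exact ih2 m hm u v y hu hv huv hy (key2 u y hu2 hy2 huy) (key2 v y hv2 hy2 hvy)
      · have e1 : Γ1 u y := huy.resolve_right fun h => hy2 (m2 _ _ h).2
        have e2 : Γ1 v y := hvy.resolve_right fun h => hy2 (m2 _ _ h).2
        have e3 : Γ1 u v := h1.back hA hab (m1 _ _ e1).1 hu2 (m1 _ _ e2).1 hv2 huv
        obtain ⟨m', hm', hu', hv', -⟩ := h1.tri hinj u v y e3 e2 e1
        refine huv (hlin m m' ?_ u v hu hu' hv hv')
        rintro rfl
        exact hd m hm' hm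

/-- The bodies on the two sides of a gluing. -/
theorem TD.cross {S1 S2 : Set M} {Γ1 Γ2 : V → V → Prop} {A1 A2 : Set V} {a b : V}
    (h1 : TD δ P S1 Γ1 A1) (h2 : TD δ P S2 Γ2 A2) (hd : ∀ m, m ∈ S1 → m ∉ S2)
    (hA : ∀ x, x ∈ A1 → x ∈ A2 → x = a ∨ x = b) (hab : a = b ∨ (Γ1 a b ∧ Γ2 a b))
    (hinj : ∀ m, Injective (δ m)) (hlin : Lin δ) {m m' : M} (hm : m ∈ S1) (hm' : m' ∈ S2)
    {t x y : V} (ht : t ∈ Set.range (δ m)) (ht' : t ∈ Set.range (δ m'))
    (hx : x ∈ Set.range (δ m)) (hy : y ∈ Set.range (δ m')) (hxt : x ≠ t) (hyt : y ≠ t)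
    (hxy : Γ1 x y ∨ Γ2 x y) : False := by
  have hA' : ∀ x, x ∈ A2 → x ∈ A1 → x = a ∨ x = b := fun x h h' => hA x h' h
  have hab' : a = b ∨ (Γ2 a b ∧ Γ1 a b) := hab.imp id fun h => ⟨h.2, h.1⟩
  have hmm : m ≠ m' := by
    rintro rfl
    exact hd m hm hm'
  have ht1 := h1.rng m hm t ht
  have ht2 := h2.rng m' hm' t ht'
  rcases hxy with e | e
  · have hy1 := (h1.mem _ _ e).2
    have hy2 := h2.rng m' hm' y hy
    have e1 : Γ1 t y := h1.back hA hab ht1 ht2 hy1 hy2 hyt.symm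
    refine h1.out hinj hlin m hm t x y ht hx hxt.symm ?_ e1 e
    intro hym
    exact hyt (hlin m m' hmm y t hym hy ht ht')
  · have hx1 := h1.rng m hm x hx
    have hx2 := (h2.mem _ _ e).1
    have e1 : Γ2 t x := h2.back hA' hab' ht2 ht1 hx2 hx1 hxt.symm
    refine h2.out hinj hlin m' hm' t y x ht' hy hyt.symm ?_ e1 (h2.symm _ _ e)
    intro hxm
    exact hxt (hlin m m' hmm x t hx hxm ht ht')

/-- Two bodies with a common vertex `t` have no edge between them outside `t`. -/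
theorem TD.ring {S : Set M} {Γ : V → V → Prop} {A : Set V} (h : TD δ P S Γ A)
    (hinj : ∀ m, Injective (δ m)) (hlin : Lin δ) : ∀ m ∈ S, ∀ m' ∈ S, m ≠ m' → ∀ t x y,
      t ∈ Set.range (δ m) → t ∈ Set.range (δ m') → x ∈ Set.range (δ m) → y ∈ Set.range (δ m') →
      x ≠ t → y ≠ t → Γ x y → False := by
  induction h with
  | bod m =>
    intro m1 hm1 m2 hm2 h12
    rw [Set.mem_singleton_iff] at hm1 hm2
    exact absurd (hm1.trans hm2.symm) h12
  | bip Γ A f h hA hs => exact fun m hm => absurd hm (Set.notMem_empty m)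
  | glu a b h1 h2 hd hA hab ih1 ih2 =>
    rename_i S1 S2 Γ1 Γ2 A1 A2
    have i1 := h1.irr hinj
    have i2 := h2.irr hinj
    have m1 := h1.mem
    have m2 := h2.mem
    have hA' : ∀ x, x ∈ A2 → x ∈ A1 → x = a ∨ x = b := fun x h h' => hA x h' h
    have hab' : a = b ∨ (Γ2 a b ∧ Γ1 a b) := hab.imp id fun h => ⟨h.2, h.1⟩
    rintro m (hm | hm) m' (hm' | hm') hmm t x y ht ht' hx hy hxt hyt hxy
    · refine ih1 m hm m' hm' hmm t x y ht ht' hx hy hxt hyt ?_
      rcases hxy with e | e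
      · exact e
      · exact h1.back hA hab (h1.rng m hm x hx) (m2 _ _ e).1 (h1.rng m' hm' y hy) (m2 _ _ e).2
          (i2 _ _ e)
    · exact h1.cross h2 hd hA hab hinj hlin hm hm' ht ht' hx hy hxt hyt hxy
    · refine h1.cross h2 hd hA hab hinj hlin hm' hm ht' ht hy hx hyt hxt ?_
      exact hxy.imp (h1.symm _ _) (h2.symm _ _)
    · refine ih2 m hm m' hm' hmm t x y ht ht' hx hy hxt hyt ?_
      rcases hxy with e | e
      · exact h2.back hA' hab' (h2.rng m hm x hx) (m1 _ _ e).1 (h2.rng m' hm' y hy) (m1 _ _ e).2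
          (i1 _ _ e)
      · exact e

end MP3240SSL
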