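import Pool.Agent.Lib.MP_3240be_co.H56.Rig
import Pool.Agent.Lib.MP_3240be_co.P57.Tdg

/-!
# MP_3240be_co, T4 (finding 4844), row R1b

`Rig.sep`: a rigid subgraph of `H` has no separation with at most one common vertex;
`Rig.connected`, `Rig.twoC`: it is connected and 2-connected.
-/

set_option autoImplicit false

namespace MP3240R

open Finset Function MP3240T MP3240W MP3240CO
open MP3240C (CxB)
open MP3240X (VQ cq bz)
open MP3240SSL (TD Sys Bod)
open Pool.Agent.Lib.MP_3240be_co.H36.Chrom (Sparse)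

/-! ## Two copies of `P` glued at a vertex -/

open Classical in
/-- The bodies of the system `two`. -/
noncomputable def twoδ {Y : Type} (c0 : Y) (q : Prop) (m : Bool) (y : Y) : Bool × Y :=
  if y = c0 ∧ q then (true, y) else (m, y)

theorem twoδ_true {Y : Type} (c0 : Y) (q : Prop) (y : Y) : twoδ c0 q true y = (true, y) := by
  unfold twoδ
  split <;> rfl

theorem twoδ_false {Y : Type} {c0 : Y} {q : Prop} {y : Y} (h : ¬ (y = c0 ∧ q)) :
    twoδ c0 q false y = (false, y) := by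
  unfold twoδ
  rw [if_neg h]

theorem twoδ_glue {Y : Type} {c0 : Y} {q : Prop} {y : Y} (h : y = c0 ∧ q) (m : Bool) :
    twoδ c0 q m y = (true, y) := by
  unfold twoδ
  rw [if_pos h]

theorem twoδ_snd {Y : Type} (c0 : Y) (q : Prop) (m : Bool) (y : Y) : (twoδ c0 q m y).2 = y := by
  unfold twoδ
  split <;> rfl

theorem twoδ_lin {Y : Type} (c0 : Y) (q : Prop) {m m' : Bool} (hm : m ≠ m') {y : Y}
    (h : twoδ c0 q m y = twoδ c0 q m' y) : y = c0 ∧ q := by
  by_contra hn
  unfold twoδ at h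
  rw [if_neg hn, if_neg hn] at h
  exact hm (congrArg Prod.fst h)

/-- The system of two copies of `P` with the vertex `c0` in common (if `q` holds). -/
noncomputable def two {Y : Type} [Finite Y] (P : SimpleGraph Y) (c0 : Y) (q : Prop) : Sys P where
  V := Bool × Y
  M := Bool
  fV := inferInstance
  fM := inferInstance
  δ := twoδ c0 q
  part := Prod.snd
  hp m y := twoδ_snd c0 q m y
  lin _ _ hm _ _ h h' := (twoδ_lin c0 q hm h).1.trans (twoδ_lin c0 q hm h').1.symm

theorem two_td {Y : Type} (P : SimpleGraph Y) (c0 : Y) (q : Prop) :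
    TD (twoδ c0 q) P (({true} : Set Bool) ∪ {false})
      (fun x y => Bod (twoδ c0 q) P true x y ∨ Bod (twoδ c0 q) P false x y)
      (Set.range (twoδ c0 q true) ∪ Set.range (twoδ c0 q false)) := by
  refine TD.glu (true, c0) (true, c0) (TD.bod true) (TD.bod false) ?_ ?_ (Or.inl rfl)
  · intro m hm hm'
    rw [Set.mem_singleton_iff] at hm hm'
    rw [hm] at hm'
    cases hm'
  · rintro _ ⟨y, rfl⟩ ⟨y', h⟩
    left
    have e : y' = y := by rw [← twoδ_snd c0 q false y', h, twoδ_snd]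
    subst e
    have h2 := twoδ_lin c0 q (by decide) h
    rw [twoδ_true, h2.1]

/-- A rigid subgraph of `H` has no separation with at most one common vertex. -/
theorem Rig.sep {n p : ℕ} {H : SimpleGraph (Fin n)} {V : Type} {D : SimpleGraph V}
    (hD : Rig H p D) (he : Sub D H) (X Y : Set V) (hXY : ∀ u, u ∈ X ∨ u ∈ Y)
    (hc : ∀ u v, u ∈ X → u ∈ Y → v ∈ X → v ∈ Y → u = v)
    (hadj : ∀ u v, D.Adj u v → (u ∈ X ∧ v ∈ X) ∨ (u ∈ Y ∧ v ∈ Y)) {x y : V} (hx : x ∈ X)
    (hxc : x ∉ Y) (hy : y ∈ Y) (hyc : y ∉ X) : False := by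
  classical
  obtain ⟨e, hei, hea⟩ := he
  -- the common vertex
  obtain ⟨c, q, hcq, hcq'⟩ : ∃ (c : V) (q : Prop), (∀ u, u ∈ X → u ∈ Y → u = c ∧ q) ∧
      (q → c ∈ X ∧ c ∈ Y) := by
    by_cases h : ∃ c, c ∈ X ∧ c ∈ Y
    · obtain ⟨c, h1, h2⟩ := h
      exact ⟨c, True, fun u h3 h4 => ⟨hc u c h3 h4 h1 h2, trivial⟩, fun _ => ⟨h1, h2⟩⟩
    · exact ⟨x, False, fun u h3 h4 => absurd ⟨u, h3, h4⟩ h, fun h => h.elim⟩
  have hgl : ∀ u, u ∈ X → u ∈ Y → e u = e c ∧ q := fun u h1 h2 =>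
    ⟨congrArg e (hcq u h1 h2).1, (hcq u h1 h2).2⟩
  have hgl' : ∀ u, (e u = e c ∧ q) → u ∈ X ∧ u ∈ Y := by
    rintro u ⟨h1, h2⟩
    rw [hei h1]
    exact hcq' h2
  let Z : Sys H := two H (e c) q
  let F : V → Bool × Fin n := fun u => twoδ (e c) q (decide (u ∈ X)) (e u)
  have hFX : ∀ u, u ∈ X → F u = twoδ (e c) q true (e u) := by
    intro u hu
    simp only [F, hu, decide_true]
  have hFY : ∀ u, u ∈ Y → F u = twoδ (e c) q false (e u) := by
    intro u hu
    by_cases h : u ∈ X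
    · rw [hFX u h, twoδ_glue (hgl u h hu), twoδ_glue (hgl u h hu)]
    · simp only [F, h, decide_false]
  have hFi : Injective F := by
    intro u v h
    apply hei
    rw [← twoδ_snd (e c) q (decide (u ∈ X)) (e u), ← twoδ_snd (e c) q (decide (v ∈ X)) (e v)]
    exact congrArg Prod.snd h
  obtain ⟨m, -, hm⟩ := hD.e1 (Fin n) H ⟨id, injective_id, fun _ _ h => h⟩ Z _ _ _ F
    ⟨two_td H (e c) q, hFi, by
      intro u
      rcases hXY u with h | h
      · left
        rw [hFX u h]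
        exact ⟨_, rfl⟩
      · right
        rw [hFY u h]
        exact ⟨_, rfl⟩, by
      intro u v huv
      rcases hadj u v huv with ⟨h1, h2⟩ | ⟨h1, h2⟩
      · left
        exact ⟨e u, e v, hFX u h1, hFX v h2, hea _ _ huv⟩
      · right
        exact ⟨e u, e v, hFY u h1, hFY v h2, hea _ _ huv⟩⟩
  cases m
  · obtain ⟨z, hz⟩ := hm x
    change twoδ (e c) q false z = F x at hz
    rw [hFX x hx, twoδ_true] at hz
    have h1 : z = e x := by rw [← twoδ_snd (e c) q false z, hz]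
    by_cases h2 : z = e c ∧ q
    · rw [h1] at h2
      exact hxc (hgl' x h2).2
    · rw [twoδ_false h2] at hz
      exact Bool.false_ne_true (congrArg Prod.fst hz)
  · obtain ⟨z, hz⟩ := hm y
    change twoδ (e c) q true z = F y at hz
    have h2 : ¬ (e y = e c ∧ q) := fun h => hyc (hgl' y h).1
    rw [hFY y hy, twoδ_true, twoδ_false h2] at hz
    exact Bool.false_ne_true (congrArg Prod.fst hz).symm

/-- A rigid subgraph of `H` is connected. -/
theorem Rig.connected {n p : ℕ} {H : SimpleGraph (Fin n)} {V : Type} {D : SimpleGraph V}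
    (hD : Rig H p D) (he : Sub D H) : D.Connected := by
  have hne : Nonempty V := by
    by_contra hn
    rw [not_nonempty_iff] at hn
    exact hD.ncol ⟨fun v => isEmptyElim v, fun {v} => isEmptyElim v⟩
  refine ⟨?_⟩
  intro u v
  by_contra huv
  refine hD.sep he {w | D.Reachable u w} {w | ¬ D.Reachable u w} (fun w => em _)
    (fun a b ha hb _ _ => absurd ha hb) ?_ (x := u) (y := v) (SimpleGraph.Reachable.refl u) ?_ huv
    huv
  · intro a b hab
    by_cases h : D.Reachable u a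
    · exact Or.inl ⟨h, h.trans hab.reachable⟩
    · exact Or.inr ⟨h, fun h' => h (h'.trans hab.symm.reachable)⟩
  · exact fun h => h (SimpleGraph.Reachable.refl u)

/-- A rigid subgraph of `H` is 2-connected. -/
theorem Rig.twoC {n p d : ℕ} {H : SimpleGraph (Fin n)} {D : SimpleGraph (Fin d)}
    (hD : Rig H p D) (he : Sub D H) : TwoC (ed D) := by
  intro J J' hJ hJ' hdis hcov
  by_contra hcon
  push Not at hcon
  have huniq : ∀ u v, Shares J J' u → Shares J J' v → u = v := by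
    intro u v h1 h2
    by_contra h3
    exact hcon u v h3 h1 h2
  -- an end of an edge that is not shared
  have hend : ∀ K : Finset (Sym2 (Fin d)), (∀ e ∈ K, e ∈ ed D) → K.Nonempty →
      ∃ x, (∃ e ∈ K, x ∈ e) ∧ ¬ Shares J J' x := by
    rintro K hK ⟨e, he⟩
    induction e with
    | _ a b =>
      have hab : D.Adj a b := mem_ed.1 (hK _ he)
      by_cases h : Shares J J' a
      · refine ⟨b, ⟨_, he, Sym2.mem_mk_right a b⟩, fun h' => ?_⟩
        exact hab.ne (huniq a b h h')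
      · exact ⟨a, ⟨_, he, Sym2.mem_mk_left a b⟩, h⟩
  obtain ⟨x, hxJ, hx⟩ := hend J (fun e he => (hcov e).2 (Or.inl he)) hJ
  obtain ⟨y, hyJ, hy⟩ := hend J' (fun e he => (hcov e).2 (Or.inr he)) hJ'
  refine hD.sep he {u | ∃ e ∈ J, u ∈ e} {u | (∃ e ∈ J', u ∈ e) ∨ ¬ ∃ e ∈ J, u ∈ e} ?_ ?_ ?_
    (x := x) (y := y) hxJ ?_ (Or.inl hyJ) ?_
  · intro u
    by_cases h : ∃ e ∈ J, u ∈ e
    · exact Or.inl h
    · exact Or.inr (Or.inr h)
  · rintro u v h1 h2 h3 h4
    exact huniq u v ⟨h1, h2.resolve_right fun h => h h1⟩ ⟨h3, h4.resolve_right fun h => h h3⟩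
  · intro u v huv
    rcases (hcov s(u, v)).1 (mem_ed.2 huv) with h | h
    · exact Or.inl ⟨⟨_, h, Sym2.mem_mk_left u v⟩, ⟨_, h, Sym2.mem_mk_right u v⟩⟩
    · exact Or.inr ⟨Or.inl ⟨_, h, Sym2.mem_mk_left u v⟩, Or.inl ⟨_, h, Sym2.mem_mk_right u v⟩⟩
  · rintro (h | h)
    · exact hx ⟨hxJ, h⟩
    · exact h hxJ
  · intro h
    exact hy ⟨h, hyJ⟩

/-- A rigid graph has at least three vertices. -/
theorem Rig.three {n p d : ℕ} {H : SimpleGraph (Fin n)} {D : SimpleGraph (Fin d)}
    (hD : Rig H p D) (hp : 1 ≤ p) : 3 ≤ d := by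
  by_contra hd
  apply hD.ncol
  have h1 : D.Colorable d := by
    have := D.colorable_of_fintype
    rwa [Fintype.card_fin] at this
  exact h1.mono (by omega)

end MP3240R
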