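import Pool.Agent.Lib.MP_3240be_co.P57.Pone

/-!
# MP_3240be_co, T4 (finding 4844): a maximal rigid graph exists

`exists_maxR`: every rigid subgraph of `H` is contained in an inclusion-maximal one.
-/

set_option autoImplicit false

namespace MP3240R

open Finset Function MP3240T

/-- The number of edges. -/
noncomputable def ne {d : ℕ} (D : SimpleGraph (Fin d)) : ℕ := by
  classical exact (univ.filter (fun x : Fin d × Fin d => D.Adj x.1 x.2)).card

theorem ne_le {d : ℕ} (D : SimpleGraph (Fin d)) : ne D ≤ d * d := by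
  classical
  refine (card_le_univ _).trans ?_
  simp

theorem ne_lt {d : ℕ} {D D' : SimpleGraph (Fin d)} (f : Fin d → Fin d) (hf : Injective f)
    (h : ∀ x y, D.Adj x y → D'.Adj (f x) (f y)) {x y : Fin d} (hxy : D'.Adj (f x) (f y))
    (hn : ¬ D.Adj x y) : ne D < ne D' := by
  classical
  unfold ne
  have e : ((univ.filter (fun x : Fin d × Fin d => D.Adj x.1 x.2)).image
      (fun x => (f x.1, f x.2))).card = (univ.filter (fun x : Fin d × Fin d => D.Adj x.1 x.2)).card := by
    apply card_image_of_injective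
    rintro ⟨a, b⟩ ⟨a', b'⟩ hab
    simp only [Prod.mk.injEq] at hab
    rw [hf hab.1, hf hab.2]
  rw [← e]
  apply card_lt_card
  rw [ssubset_iff_of_subset]
  · refine ⟨(f x, f y), ?_, ?_⟩
    · simpa using hxy
    · intro hmem
      rw [mem_image] at hmem
      obtain ⟨⟨a, b⟩, hab, he⟩ := hmem
      simp only [Prod.mk.injEq] at he
      rw [mem_filter] at hab
      have h1 := hf he.1
      have h2 := hf he.2
      subst h1
      subst h2
      exact hn hab.2
  · intro z hz
    rw [mem_image] at hz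
    obtain ⟨⟨a, b⟩, hab, rfl⟩ := hz
    rw [mem_filter] at hab ⊢
    exact ⟨mem_univ _, h _ _ hab.2⟩

/-- Every rigid subgraph of `H` is contained in an inclusion-maximal one. -/
theorem exists_maxR {n p : ℕ} {H : SimpleGraph (Fin n)} {V : Type} [Finite V]
    {M : SimpleGraph V} (hM : Sub M H) (hr : Rig H p M) :
    ∃ (d : ℕ) (D : SimpleGraph (Fin d)), MaxR H p D ∧ Emb M D ∧ d ≤ n := by
  classical
  have := Fintype.ofFinite V
  -- the property to be maximised
  let Q : ℕ → Prop := fun k => ∃ (d : ℕ) (D : SimpleGraph (Fin d)), Sub D H ∧ Rig H p D ∧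
    Emb M D ∧ k = d * (n * n + 1) + ne D
  have hle : ∀ (d : ℕ) (D : SimpleGraph (Fin d)), Sub D H → d ≤ n := by
    rintro d D ⟨f, hf, -⟩
    simpa using Fintype.card_le_of_injective f hf
  have hQb : ∀ k, Q k → k ≤ n * (n * n + 1) + n * n := by
    rintro k ⟨d, D, h1, -, -, rfl⟩
    have hd := hle d D h1
    have h2 := ne_le D
    have h3 : d * d ≤ n * n := Nat.mul_le_mul hd hd
    have h4 : d * (n * n + 1) ≤ n * (n * n + 1) := Nat.mul_le_mul_right _ hd
    omega
  have hQ0 : ∃ k, Q k := by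
    let e : V ≃ Fin (Fintype.card V) := Fintype.equivFin V
    let D : SimpleGraph (Fin (Fintype.card V)) := M.comap e.symm
    have ha : ∀ x y, M.Adj x y → D.Adj (e x) (e y) := by
      intro x y h
      change M.Adj (e.symm (e x)) (e.symm (e y))
      rwa [e.symm_apply_apply, e.symm_apply_apply]
    obtain ⟨f, hf, hfa⟩ := hM
    exact ⟨_, _, D, ⟨fun x => f (e.symm x), hf.comp e.symm.injective, fun x y h => hfa _ _ h⟩,
      hr.map e e.injective e.surjective ha, ⟨e, e.injective, ha⟩, rfl⟩
  obtain ⟨k, ⟨d, D, h1, h2, h3, hk⟩, hmax⟩ : ∃ k, Q k ∧ ∀ k', Q k' → k' ≤ k := by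
    refine ⟨Nat.findGreatest Q (n * (n * n + 1) + n * n), ?_, ?_⟩
    · obtain ⟨k, hk⟩ := hQ0
      exact Nat.findGreatest_spec (hQb k hk) hk
    · intro k' hk'
      exact Nat.le_findGreatest (hQb k' hk') hk'
  refine ⟨d, D, ⟨h1, h2, ?_⟩, h3, hle d D h1⟩
  intro W _ N hN hrN f hf hfa
  have := Fintype.ofFinite W
  -- `N` on `Fin d'`
  let e : W ≃ Fin (Fintype.card W) := Fintype.equivFin W
  let N' : SimpleGraph (Fin (Fintype.card W)) := N.comap e.symm
  have ha : ∀ x y, N.Adj x y → N'.Adj (e x) (e y) := by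
    intro x y h
    change N.Adj (e.symm (e x)) (e.symm (e y))
    rwa [e.symm_apply_apply, e.symm_apply_apply]
  have hQN : Q (Fintype.card W * (n * n + 1) + ne N') := by
    obtain ⟨g, hg, hga⟩ := hN
    obtain ⟨m, hm, hma⟩ := h3
    exact ⟨_, N', ⟨fun x => g (e.symm x), hg.comp e.symm.injective, fun x y h => hga _ _ h⟩,
      hrN.map e e.injective e.surjective ha, ⟨fun x => e (f (m x)),
        e.injective.comp (hf.comp hm), fun x y h => ha _ _ (hfa _ _ (hma _ _ h))⟩, rfl⟩
  have hle' := hmax _ hQN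
  rw [hk] at hle'
  have hdW : d ≤ Fintype.card W := by
    simpa using Fintype.card_le_of_injective f hf
  have hne : ne D ≤ n * n := (ne_le D).trans (Nat.mul_le_mul (hle d D h1) (hle d D h1))
  have hWd : Fintype.card W = d := by
    by_contra hne'
    have h5 : d + 1 ≤ Fintype.card W := by omega
    have h6 : (d + 1) * (n * n + 1) ≤ Fintype.card W * (n * n + 1) := Nat.mul_le_mul_right _ h5
    have h7 : (d + 1) * (n * n + 1) = d * (n * n + 1) + (n * n + 1) := by ring
    omega
  have hsurj : Surjective f := by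
    have hbij : Bijective f := (Fintype.bijective_iff_injective_and_card f).2 ⟨hf, by
      rw [hWd, Fintype.card_fin]⟩
    exact hbij.2
  refine ⟨hsurj, ?_⟩
  intro x y hxy
  by_contra hn
  -- compare the numbers of edges
  let e' : W ≃ Fin d := (Fintype.equivFinOfCardEq hWd)
  let N2 : SimpleGraph (Fin d) := N.comap e'.symm
  have ha2 : ∀ x y, N.Adj x y → N2.Adj (e' x) (e' y) := by
    intro x y h
    change N.Adj (e'.symm (e' x)) (e'.symm (e' y))
    rwa [e'.symm_apply_apply, e'.symm_apply_apply]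
  have hQ2 : Q (d * (n * n + 1) + ne N2) := by
    obtain ⟨g, hg, hga⟩ := hN
    obtain ⟨m, hm, hma⟩ := h3
    exact ⟨_, N2, ⟨fun x => g (e'.symm x), hg.comp e'.symm.injective, fun x y h => hga _ _ h⟩,
      hrN.map e' e'.injective e'.surjective ha2, ⟨fun x => e' (f (m x)),
        e'.injective.comp (hf.comp hm), fun x y h => ha2 _ _ (hfa _ _ (hma _ _ h))⟩, rfl⟩
  have h8 := hmax _ hQ2
  rw [hk] at h8
  have h9 : ne D < ne N2 := ne_lt (fun x => e' (f x)) (e'.injective.comp hf)
    (fun x y h => ha2 _ _ (hfa _ _ h)) (x := x) (y := y) (ha2 _ _ hxy) hn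
  omega

end MP3240R
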